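import Pool.Agent.H32.CH.Targets

set_option autoImplicit false
set_option linter.unusedSectionVars false

namespace Pool.Agent.H87.CH

open Finset Pool.Agent.H32.CH
open scoped Classical

theorem pf_HS : T_HS := by
  intro V _ G X
  induction X using Finset.induction_on with
  | empty => simp
  | insert a X ha ih =>
    rw [sum_insert ha, dg_insert_self]
    have h1 : ∑ x ∈ X, dg G (insert a X) x = ∑ x ∈ X, dg G X x + dg G X a := by
      have h2 : ∀ x ∈ X, dg G (insert a X) x = dg G X x + (if G.Adj a x then 1 else 0) := by
        intro x hx
        by_cases h : G.Adj a x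
        · rw [if_pos h, dg_insert_adj ha h.symm]
        · rw [if_neg h, dg_insert_not (fun h' => h h'.symm)]
          rfl
      rw [sum_congr rfl h2, sum_add_distrib]
      congr 1
      rw [← card_filter]
      rfl
    rw [h1]
    obtain ⟨k, hk⟩ := ih
    exact ⟨dg G X a + k, by omega⟩

end Pool.Agent.H87.CH
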