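import Pool.Agent.H32.CH.Targets

set_option autoImplicit false
set_option linter.unusedSectionVars false

namespace Pool.Agent.H87.CH

open Finset Pool.Agent.H32.CH
open scoped Classical

theorem pf_W0 (h : T_COR) : T_W0 := by
  intro m hm
  refine ⟨2 * m, fun i => {3 * (i : ℕ), 3 * (i : ℕ) + 1, 3 * (i : ℕ) + 2}, ⟨?_, ?_, ?_⟩, ?_⟩
  · intro i
    rw [card_insert_of_notMem, card_insert_of_notMem, card_singleton]
    · simp
    · simp
  · intro i x hx
    have := i.2
    simp only [mem_insert, mem_singleton] at hx
    rw [mem_range]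
    omega
  · intro i j hij
    rw [disjoint_left]
    intro x hx hx'
    simp only [mem_insert, mem_singleton] at hx hx'
    apply hij
    apply Fin.ext
    omega
  · intro r hr hw _
    have h1 : ∀ i : ℕ, ∃ p : ℕ, i < 2 * m → p ∈ r ∧ 3 * i ≤ p ∧ p ≤ 3 * i + 2 := by
      intro i
      by_cases hi : i < 2 * m
      · obtain ⟨p, hp⟩ := card_eq_one.1 (hw ⟨i, hi⟩)
        refine ⟨p, fun _ => ?_⟩
        have h2 : p ∈ r ∩ {3 * i, 3 * i + 1, 3 * i + 2} := by
          have h3 : p ∈ ({p} : Finset ℕ) := mem_singleton_self p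
          rw [← hp] at h3
          exact h3
        rw [mem_inter, mem_insert, mem_insert, mem_singleton] at h2
        refine ⟨h2.1, ?_, ?_⟩ <;> omega
      · exact ⟨0, fun h => absurd h hi⟩
    choose P hP using h1
    have hP1 : ∀ i, i < 2 * m → 3 * i ≤ P i := fun i hi => (hP i hi).2.1
    have hP2 : ∀ i, i < 2 * m → P i ≤ 3 * i + 2 := fun i hi => (hP i hi).2.2
    have h0 := hP1 0 (by omega)
    have h0' := hP2 0 (by omega)
    have hk := hP1 (2 * m - 1) (by omega)
    have hk' := hP2 (2 * m - 1) (by omega)
    have hk2 := hP1 (2 * m - 2) (by omega)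
    have hk2' := hP2 (2 * m - 2) (by omega)
    have h11 := hP1 1 (by omega)
    have h11' := hP2 1 (by omega)
    obtain ⟨s, hs, hs'⟩ := h (6 * m) (2 * m) P (fun i => i % 2 = 1) (by omega)
      (fun i hi => by have := hP2 i hi; omega)
      (fun i hi => by
        have := hP1 i (by omega)
        have := hP2 i (by omega)
        have := hP1 (i + 1) hi
        have := hP2 (i + 1) hi
        omega)
      (by omega) (fun i hi h1 h2 => by omega) (fun h1 => by omega)
      (fun i hi h1 => by omega) (fun _ => Or.inl (by omega))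
      (fun i hi h1 h2 => by
        have := hP1 i (by omega)
        have := hP2 i (by omega)
        have := hP1 (i + 1) (by omega)
        have := hP2 (i + 1) (by omega)
        have := hP1 (i + 2) hi
        have := hP2 (i + 2) hi
        omega)
      (fun h1 _ => by omega)
      (fun _ h2 => by omega)
    refine ⟨s, fun x hx => ?_, hs'⟩
    obtain ⟨i, hi, rfl⟩ := mem_image.1 (hs hx)
    exact (hP i (mem_range.1 hi)).1

end Pool.Agent.H87.CH
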